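import Pool.Agent.X31.W4
import Pool.Agent.X31.M3

/-!
# Variance and moments of the sums of the Möbius function over sparse windows `t + s_1, ..., t + s_k`, `k ≤ log ^ T N`,
# with shifts near the values of bilinear functions at pairs of integers with missing digits

`C₁`, `C₂` are sets of integers with `mᵢ` digits in base `bᵢ` whose digit at `bᵢ ^ j` is in `𝒟ᵢ j`, where the sets
`𝒟ᵢ j` of allowed digits are arbitrary with at least TWO elements (for instance: the integers with the decimal digits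
`0` and `1` only; the product of the two sets can be as thin as `N ^ ε`), `θ` is a real number and `g`, `h` are
ARBITRARY real functions. The values considered are `θ x y + g(x) + h(y)`; for `θ = 1`, `g = h = 0` these are the
products of two integers with missing digits.
The number `k ≤ log ^ T N` of the shifts may grow with `N`. For almost all vectors of elements of ARBITRARY dense subsets
of `k` such sets and for ALL vectors of natural numbers `s_i` within `log ^ D N` of the values, the sums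
`∑_i a_i μ(t + s_i)` over the window `t + s_1, ..., t + s_k`, with arbitrary coefficients `|a_i| ≤ log ^ T N`, have, up to
errors which save an arbitrary power of the logarithm, the variance `(6 / π²) ∑ a_i ^ 2` (that is `H / ζ(2)` for a window
of `H = k` integers and `a_i = 1`) and the same moments of every order as the sums `∑_i ± a_i μ²(t + s_i)` with random
signs; also the moments over arbitrary given sets of `t` (weights `w`).

The minimal real additive energy of these values is from `Pool.Agent.X31.M1` - `M3` (in this run); the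
correlations for families with a sparse large spectrum are from `Pool.Agent.X107.JF` (helper107), the bound for the
exponential sums with `μ` (Davenport) is from the starting files (`Pool.Agent.H373R2.T7.sup_muC`).
-/

set_option autoImplicit false

namespace Pool.Agent.Results.MP_4f18df_nt.BilinearWindows

open Finset

/-- the integers `0 ≤ n < b ^ m` whose digit at `b ^ j` in base `b` is in `𝒟 j`, for all `j < m` -/
def Digits (b : ℕ) (𝒟 : ℕ → Finset ℕ) (m : ℕ) : Finset ℕ :=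
  (range (b ^ m)).filter (fun n => ∀ j < m, n / b ^ j % b ∈ 𝒟 j)

/-- the bilinear function `θ x y + g(x) + h(y)` -/
def bil (θ : ℝ) (g h : ℕ → ℝ) (n : ℕ × ℕ) : ℝ := θ * ((n.1 : ℝ) * n.2) + g n.1 + h n.2

/-- `M` is a set of pairs in `Digits b₁ 𝒟₁ m₁ × Digits b₂ 𝒟₂ m₂` with at least `1 / log ^ D N` of all these pairs, where
all sets `𝒟ᵢ j` of allowed digits have at least two elements and `m₁ ≤ l m₂`, `m₂ ≤ l m₁`; the number `θ` is at most
`log ^ D N` and at least `N / (b₁ ^ m₁ b₂ ^ m₂ log ^ D N)` in absolute value; `g` and `h` are ARBITRARY functions with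
`|bil θ g h| ≤ N` on `M`. -/
def Fam (b₁ b₂ l D N m₁ m₂ : ℕ) (𝒟₁ 𝒟₂ : ℕ → Finset ℕ) (θ : ℝ) (g h : ℕ → ℝ) (M : Finset (ℕ × ℕ)) : Prop :=
  (∀ j, 𝒟₁ j ⊆ range b₁ ∧ 2 ≤ (𝒟₁ j).card) ∧ (∀ j, 𝒟₂ j ⊆ range b₂ ∧ 2 ≤ (𝒟₂ j).card) ∧
  m₁ ≤ l * m₂ ∧ m₂ ≤ l * m₁ ∧
  |θ| ≤ Real.log N ^ D ∧ (N : ℝ) / Real.log N ^ D ≤ |θ| * ((b₁ : ℝ) ^ m₁ * (b₂ : ℝ) ^ m₂) ∧
  M ⊆ Digits b₁ 𝒟₁ m₁ ×ˢ Digits b₂ 𝒟₂ m₂ ∧
  ((Digits b₁ 𝒟₁ m₁).card * (Digits b₂ 𝒟₂ m₂).card : ℝ) / Real.log N ^ D ≤ M.card ∧ ∀ n ∈ M, |bil θ g h n| ≤ N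

/-- the sum `∑ i, a i * μ(t + s i)` over the window `t + s 0, ..., t + s (k - 1)` -/
noncomputable def win {k : ℕ} (a : Fin k → ℝ) (s : Fin k → ℕ) (t : ℕ) : ℝ :=
  ∑ i, a i * (ArithmeticFunction.moebius (t + s i) : ℝ)

/-- the mean of `(∑ i, ± a i * μ²(t + s i)) ^ j` over all the `2 ^ k` choices of the signs -/
noncomputable def signs {k : ℕ} (a : Fin k → ℝ) (s : Fin k → ℕ) (j t : ℕ) : ℝ :=
  (∑ ε : Fin k → Bool,
    (∑ i, (if ε i then 1 else -1) * (a i * (ArithmeticFunction.moebius (t + s i) : ℝ) ^ 2)) ^ j) / 2 ^ k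

lemma dat_of {b₁ b₂ l D N m₁ m₂ : ℕ} {𝒟₁ 𝒟₂ : ℕ → Finset ℕ} {θ : ℝ} {g h : ℕ → ℝ} {M : Finset (ℕ × ℕ)}
    (H : Fam b₁ b₂ l D N m₁ m₂ 𝒟₁ 𝒟₂ θ g h M) : Pool.Agent.X31.CT.Dat2 b₁ b₂ l D N m₁ m₂ 𝒟₁ 𝒟₂ θ g h M :=
  ⟨H.1, H.2.1, H.2.2.1, H.2.2.2.1, H.2.2.2.2.1, H.2.2.2.2.2.1, H.2.2.2.2.2.2.1, H.2.2.2.2.2.2.2.1,
    H.2.2.2.2.2.2.2.2⟩

/-- Let `b₁, b₂ ≥ 2` and `l ≥ 1` be integers. Let `r`, `B`, `D`, `T`, `U` be natural numbers. For all
sufficiently large `N`, all numbers `k ≤ log ^ T N` of shifts, all numbers `m₁ i`, `m₂ i` of digits, ALL sets of allowed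
digits, all `θ i`, ALL functions `g i`, `h i` and all sets `M i` of pairs with
`Fam b₁ b₂ l D N (m₁ i) (m₂ i) (𝒟₁ i) (𝒟₂ i) (θ i) (g i) (h i) (M i)` (`i < k`),
and for all weights `w l`, `l < J ≤ log ^ T N`, with `|w l| ≤ 1`: for all but at most `(∏ #(M i)) / log ^ U N` of the vectors
`n` with `n i ∈ M i`, ALL vectors `s` of natural numbers with `|s i - bil (θ i) (g i) (h i) (n i)| ≤ log ^ D N`, all real
coefficients `|a i| ≤ log ^ T N` and all `x ≤ B N` satisfy: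

* the variance: `|∑ t ≤ x, (win a s t) ^ 2 - (6 / π²) (∑ i, a i ^ 2) x| ≤ N / log ^ U N`;
* the moments: `|∑ t ≤ x, w l t * ((win a s t) ^ j - signs a s j t)| ≤ N / log ^ U N` for all `j ≤ r` and all `l`. -/
theorem result (b₁ b₂ l : ℕ) (hb₁ : 2 ≤ b₁) (hb₂ : 2 ≤ b₂) (hl : 1 ≤ l) (r B D T U : ℕ) :
    ∃ N₀ : ℕ, ∀ N : ℕ, N₀ ≤ N → ∀ k : ℕ, (k : ℝ) ≤ Real.log N ^ T →
      ∀ (m₁ m₂ : Fin k → ℕ) (𝒟₁ 𝒟₂ : Fin k → ℕ → Finset ℕ) (θ : Fin k → ℝ) (g h : Fin k → ℕ → ℝ)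
        (M : Fin k → Finset (ℕ × ℕ)),
        (∀ i, Fam b₁ b₂ l D N (m₁ i) (m₂ i) (𝒟₁ i) (𝒟₂ i) (θ i) (g i) (h i) (M i)) →
      ∀ J : ℕ, (J : ℝ) ≤ Real.log N ^ T → ∀ w : Fin J → ℕ → ℝ, (∀ l t, |w l t| ≤ 1) →
      ∃ E : Finset (Fin k → (ℕ × ℕ)), (E.card : ℝ) ≤ (∏ i, ((M i).card : ℝ)) / Real.log N ^ U ∧
        ∀ n : Fin k → (ℕ × ℕ), (∀ i, n i ∈ M i) → n ∉ E →
        ∀ s : Fin k → ℕ, (∀ i, |(s i : ℝ) - bil (θ i) (g i) (h i) (n i)| ≤ Real.log N ^ D) →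
        ∀ a : Fin k → ℝ, (∀ i, |a i| ≤ Real.log N ^ T) → ∀ x : ℕ, x ≤ B * N →
          |(∑ t ∈ Icc 1 x, win a s t ^ 2) - 6 / Real.pi ^ 2 * (∑ i, a i ^ 2) * x| ≤ N / Real.log N ^ U ∧
          ∀ j ≤ r, ∀ l, |∑ t ∈ Icc 1 x, w l t * (win a s t ^ j - signs a s j t)| ≤ N / Real.log N ^ U := by
  obtain ⟨N₀, h0⟩ := (Pool.Agent.X31.Sch_bil hb₁ hb₂ l hl).mv (0, 0) r B D T U
  refine ⟨N₀, fun N hN k hk m₁ m₂ 𝒟₁ 𝒟₂ θ g h M hfam J hJ w hw => ?_⟩
  exact h0 N hN k hk M (fun i n => bil (θ i) (g i) (h i) n) (fun i => ⟨m₁ i, m₂ i, 𝒟₁ i, 𝒟₂ i, θ i, g i, h i, dat_of (hfam i), fun _ => rfl⟩) J hJ w hw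

end Pool.Agent.Results.MP_4f18df_nt.BilinearWindows
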